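import Pool.Agent.Helper66.TU.Defs
import Pool.Agent.Helper9.GWA.Places

/-!
# TU, module FIN: almost all places are unramified over a large prime of `ℤ[i]`
-/

set_option autoImplicit false

namespace GWA

open NumberField IsDedekindDomain WithZero

section fin

variable {L : Type} [Field L] [NumberField L]

theorem fin_val_eq (v : HeightOneSpectrum (𝓞 L)) {r : 𝓞 L} (h1 : r ∈ v.asIdeal)
    (h2 : r ∉ v.asIdeal ^ 2) : v.intValuation r = exp (-1 : ℤ) := by
  have h0 : v.intValuation r ≠ 0 := by
    intro h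
    apply h2
    rw [← v.intValuation_le_pow_iff_mem, h]
    exact zero_le
  have e1 : v.intValuation r ≤ exp (-((1 : ℕ) : ℤ)) := by
    rw [v.intValuation_le_pow_iff_mem, pow_one]
    exact h1
  have e2 : ¬ v.intValuation r ≤ exp (-((2 : ℕ) : ℤ)) := by
    rw [v.intValuation_le_pow_iff_mem]
    exact h2
  obtain ⟨n, hn⟩ : ∃ n : ℤ, v.intValuation r = exp n := ⟨log (v.intValuation r), (exp_log h0).symm⟩
  rw [hn, exp_le_exp] at e1 e2
  rw [hn]
  congr 1
  push_cast at e1 e2
  omega

variable [Algebra GaussianInt L]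

theorem fin_integral_II : IsIntegral ℤ (II L) := by
  refine ⟨Polynomial.X ^ 2 + 1, ?_, ?_⟩
  · monicity!
  · simp [II_sq]

/-- the square root of `-1` in the ring of integers -/
noncomputable def finI : 𝓞 L := ⟨II L, fin_integral_II⟩

theorem finI_mul : (finI : 𝓞 L) * finI = ((-1 : ℤ) : 𝓞 L) := by
  apply FaithfulSMul.algebraMap_injective (𝓞 L) L
  rw [map_mul, map_intCast]
  change II L * II L = _
  rw [← pow_two, II_sq]
  push_cast
  rfl

/-- the Gaussian integers in the ring of integers -/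
noncomputable def finHom : GaussianInt →+* 𝓞 L := Zsqrtd.lift ⟨finI, finI_mul⟩

theorem finHom_spec (a : GaussianInt) :
    algebraMap (𝓞 L) L (finHom a) = algebraMap GaussianInt L a := by
  rw [show a = ⟨a.re, a.im⟩ from rfl, gi_map]
  simp only [finHom, Zsqrtd.lift_apply_apply, map_add, map_mul, map_intCast]
  rfl

/-- all but finitely many places are unramified over a prime element of the Gaussian integers of
large norm -/
theorem finite_bad_aux (M : ℕ) :
    {v : HeightOneSpectrum (𝓞 L) | ¬ ∃ π : GaussianInt, (Prime π ∧ ¬ π ∣ 2 ∧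
      v.valuation L (algebraMap GaussianInt L π) = WithZero.exp (-1 : ℤ)) ∧
        M ≤ π.norm.natAbs}.Finite := by
  have hdiff : differentIdeal ℤ (𝓞 L) ≠ 0 := differentIdeal_ne_bot
  have hfac : (Ideal.span {(((max M 3).factorial : ℕ) : 𝓞 L)} : Ideal (𝓞 L)) ≠ 0 := by
    rw [ne_eq, Ideal.zero_eq_bot, Ideal.span_singleton_eq_bot]
    exact_mod_cast Nat.factorial_ne_zero _
  refine ((Ideal.finite_factors hdiff).union (Ideal.finite_factors hfac)).subset ?_
  intro v hv
  by_contra hcon
  rw [Set.mem_union, not_or] at hcon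
  obtain ⟨hd, hf⟩ := hcon
  apply hv
  have hf' : (((max M 3).factorial : ℕ) : 𝓞 L) ∉ v.asIdeal := by
    intro h
    exact hf (Ideal.dvd_span_singleton.2 h)
  have hsmall : ∀ n : ℕ, 0 < n → n ≤ max M 3 → (n : 𝓞 L) ∉ v.asIdeal := by
    intro n hn hnM h
    obtain ⟨c, hc⟩ := Nat.dvd_factorial hn hnM
    apply hf'
    rw [hc, Nat.cast_mul]
    exact Ideal.mul_mem_right _ _ h
  -- the rational prime
  have hp0 : v.asIdeal.under ℤ ≠ ⊥ := mt Ideal.eq_bot_of_comap_eq_bot v.ne_bot
  have hpm : (v.asIdeal.under ℤ).IsMaximal := Ideal.IsPrime.isMaximal inferInstance hp0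
  obtain ⟨p, hp⟩ := (IsPrincipalIdealRing.principal (v.asIdeal.under ℤ)).principal
  have hpne : p ≠ 0 := by
    rintro rfl
    apply hp0
    rw [hp]
    simp
  have hpmem : (algebraMap ℤ (𝓞 L) p) ∈ v.asIdeal := by
    have : p ∈ v.asIdeal.under ℤ := by
      rw [hp]
      exact Submodule.mem_span_singleton_self p
    exact this
  have hp2 : (algebraMap ℤ (𝓞 L) p) ∉ v.asIdeal ^ 2 := by
    intro h
    apply hd
    have h1 := pow_sub_one_dvd_differentIdeal ℤ (p := v.asIdeal.under ℤ) v.asIdeal 2 hp0 (by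
      have h2 : (v.asIdeal.under ℤ).map (algebraMap ℤ (𝓞 L)) =
          Ideal.span {algebraMap ℤ (𝓞 L) p} := by
        have h3 : v.asIdeal.under ℤ = Ideal.span {p} := hp
        rw [h3, Ideal.map_span, Set.image_singleton]
      rw [h2, Ideal.dvd_span_singleton]
      exact h)
    simpa using h1
  -- the Gaussian prime
  have hq : (v.asIdeal.comap (finHom (L := L))).IsPrime := Ideal.comap_isPrime _ _
  obtain ⟨π, hπ⟩ := (IsPrincipalIdealRing.principal (v.asIdeal.comap (finHom (L := L)))).principal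
  have hπ' : v.asIdeal.comap (finHom (L := L)) = Ideal.span {π} := hπ
  have hmem : ∀ a : GaussianInt, finHom (L := L) a ∈ v.asIdeal ↔ π ∣ a := by
    intro a
    rw [← Ideal.mem_span_singleton, ← hπ', Ideal.mem_comap]
  have hpp : finHom (L := L) (p : GaussianInt) = algebraMap ℤ (𝓞 L) p := by
    rw [map_intCast]
    simp
  have hdvd : π ∣ (p : GaussianInt) := by
    rw [← hmem, hpp]
    exact hpmem
  have hπ0 : π ≠ 0 := by
    rintro rfl
    rw [zero_dvd_iff] at hdvd
    exact hpne (by exact_mod_cast hdvd)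
  have hprime : Prime π := by
    rw [← Ideal.span_singleton_prime hπ0, ← hπ']
    exact hq
  refine ⟨π, ⟨hprime, ?_, ?_⟩, ?_⟩
  · intro h
    have h1 := (hmem 2).2 h
    apply hsmall 2 (by norm_num) (by omega)
    have h2 : finHom (L := L) 2 = ((2 : ℕ) : 𝓞 L) := by
      rw [map_ofNat]
      norm_num
    rw [← h2]
    exact h1
  · rw [← finHom_spec, v.valuation_of_algebraMap]
    apply fin_val_eq
    · exact (hmem π).2 dvd_rfl
    · intro h
      obtain ⟨c, hc⟩ := hdvd
      apply hp2
      rw [← hpp, hc, map_mul]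
      exact Ideal.mul_mem_right _ _ h
  · by_contra hlt
    push Not at hlt
    have hn0 : 0 < π.norm.natAbs := by
      rw [Int.natAbs_pos, ne_eq, GaussianInt.norm_eq_zero]
      exact hπ0
    apply hsmall π.norm.natAbs hn0 (le_trans hlt.le (le_max_left _ _))
    have h1 : π ∣ ((π.norm : ℤ) : GaussianInt) := by
      rw [gi_norm]
      exact dvd_mul_right _ _
    have h2 := (hmem _).2 h1
    rw [map_intCast] at h2
    have h3 : ((π.norm.natAbs : ℕ) : 𝓞 L) = ((π.norm : ℤ) : 𝓞 L) := by
      rw [← Int.cast_natCast, Int.natAbs_of_nonneg (GaussianInt.norm_nonneg π)]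
    rw [h3]
    exact h2

end fin

end GWA
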