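import Pool.Agent.Helper66.TU.Defs
import Pool.Agent.Helper9.GWA.GApp
import Pool.Agent.Helper9.K3.Final

/-!
# TU, module FINAL: every number field containing `i`, almost every place

The modules COMPL, FIN, GLOB, LOCAL enter as hypotheses; `U` is the predicate `UPl`.
-/

set_option autoImplicit false

namespace KumK3

open NumberField IsDedekindDomain GWA

theorem exists_fourth_root (q : ℕ) : ∃ B : ℕ, B ^ 4 ≤ q ∧ q < (B + 1) ^ 4 := by
  have h : ∃ B : ℕ, q < (B + 1) ^ 4 := by
    refine ⟨q, ?_⟩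
    calc q < q + 1 := Nat.lt_succ_self q
      _ ≤ (q + 1) ^ 4 := Nat.le_self_pow (by norm_num) _
  refine ⟨Nat.find h, ?_, Nat.find_spec h⟩
  rcases Nat.eq_zero_or_pos (Nat.find h) with h0 | h0
  · rw [h0]
    simp
  · obtain ⟨B, hB⟩ : ∃ B, Nat.find h = B + 1 := ⟨Nat.find h - 1, by omega⟩
    have h1 := Nat.find_min h (m := B) (by omega)
    rw [hB]
    exact not_lt.1 h1

/-- the final assembly, with the structure of a `ℤ[i]`-algebra as a datum -/
theorem final_TU_alg (L : Type) [Field L] [NumberField L] [Algebra GaussianInt L]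
    (U : HeightOneSpectrum (𝓞 L) → GaussianInt → Prop)
    (hlhu : ∀ (v : HeightOneSpectrum (𝓞 L)) (π : GaussianInt), U v π →
      LHU (v.adicCompletion L) π)
    (hrmap : ∀ (v : HeightOneSpectrum (𝓞 L)) (π : GaussianInt), U v π →
      ∃ (k : Type) (_ : Field k) (_ : Algebra GaussianInt k) (_ : Finite k)
        (r : v.adicCompletion L → k) (g : ℕ), RMap (v.adicCompletion L) k r ∧ 1 ≤ g ∧
        g ≤ Module.finrank ℚ L ∧ Nat.card k = π.norm.natAbs ^ g)
    (hfin : ∀ M : ℕ, {v : HeightOneSpectrum (𝓞 L) |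
      ¬ ∃ π : GaussianInt, U v π ∧ M ≤ π.norm.natAbs}.Finite)
    (hdense : ∀ {L F : Type} [Field L] [NeZero (2 : L)] [Algebra GaussianInt L]
      [NormedField F] [NeZero (2 : F)] [DecidableEq F] [Algebra GaussianInt F] {π : GaussianInt}
      (_ : LHU F π) (φ : L →+* F)
      (_ : ∀ a, φ (algebraMap GaussianInt L a) = algebraMap GaussianInt F a) (_ : DenseRange φ)
      (_ : ∀ A : (d : Fˣ) → E (d : F) → E (d : F) → Prop, MSt π A →
        ∀ (d : Fˣ) (P Q : E (d : F)), A d P Q), DenseRange (Pt.map φ))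
    (hlocal : ∀ {K : Type} [NormedField K] [Algebra GaussianInt K] [NeZero (2 : K)]
      [DecidableEq K] {π : GaussianInt} {k : Type} [Field k] [Algebra GaussianInt k] {r : K → k}
      {A : (d : Kˣ) → E (d : K) → E (d : K) → Prop} (_ : MSt π A) (_ : LHU K π)
      (_ : RMap K k r) [Finite k] (g B : ℕ)
      (_ : 1 ≤ g) (_ : Nat.card k = π.norm.natAbs ^ g) (_ : 8 * g + 2 ≤ B)
      (_ : B ^ 4 ≤ π.norm.natAbs) (_ : π.norm.natAbs < (B + 1) ^ 4) (d : Kˣ)
      (P Q : E (d : K)), A d P Q) :
    {v : HeightOneSpectrum (𝓞 L) |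
      ¬ DenseRange (X.map (algebraMap L (v.adicCompletion L)))}.Finite := by
  classical
  refine (hfin ((8 * Module.finrank ℚ L + 2) ^ 4)).subset ?_
  intro v hv hex
  apply hv
  obtain ⟨π, hU, hM⟩ := hex
  have h := hlhu v π hU
  obtain ⟨k, _, _, _, r, g, hr, hg1, hg2, hcard⟩ := hrmap v π hU
  obtain ⟨B, hB1, hB2⟩ := exists_fourth_root π.norm.natAbs
  have hB : 8 * g + 2 ≤ B := by
    have h1 : (8 * Module.finrank ℚ L + 2) ^ 4 < (B + 1) ^ 4 := lt_of_le_of_lt hM hB2
    have h2 := lt_of_pow_lt_pow_left₀ 4 (Nat.zero_le _) h1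
    omega
  have hF : NeZero (2 : v.adicCompletion L) := by
    have := charZero_of_injective_algebraMap (algebraMap L (v.adicCompletion L)).injective
    infer_instance
  have hL : NeZero (2 : L) := inferInstance
  have hPt : DenseRange (Pt.map (algebraMap L (v.adicCompletion L))) := by
    refine hdense h (algebraMap L (v.adicCompletion L)) (fun a => rfl)
      (v.denseRange_algebraMap L) ?_
    intro A hA d P Q
    exact hlocal hA h hr g B hg1 hcard hB hB1 hB2 d P Q
  have h1 : DenseRange (emb : Pt (v.adicCompletion L) → X (v.adicCompletion L)) :=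
    dense_emb (exists_one_lt_adic v)
  have h2 := h1.comp hPt continuous_emb
  refine Dense.mono ?_ h2
  rintro _ ⟨u, rfl⟩
  exact ⟨emb u, map_emb _ u⟩

/-- the `ℤ[i]`-algebra structure given by a square root of `-1` -/
noncomputable abbrev giAlg {L : Type} [Field L] (i : L) (hi : i ^ 2 = -1) :
    Algebra GaussianInt L :=
  (Zsqrtd.lift ⟨i, by
    rw [← pow_two, hi, Int.cast_neg, Int.cast_one]⟩ : GaussianInt →+* L).toAlgebra

end KumK3

/-
Assembly, once COMPL, FIN, GLOB and LOCAL are imported (checked against the stub file):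

theorem final_TU (L : Type) [Field L] [NumberField L] (i : L) (hi : i ^ 2 = -1) :
    {v : HeightOneSpectrum (𝓞 L) |
      ¬ DenseRange (X.map (algebraMap L (v.adicCompletion L)))}.Finite := by
  letI : Algebra GaussianInt L := giAlg i hi
  exact final_TU_alg L UPl (fun v π h => h.lhu) (fun v π h => h.exists_rmap) finite_bad
    dense_one (fun hA h hr _ g B h1 h2 h3 h4 h5 => hA.local_univ h hr g B h1 h2 h3 h4 h5)
-/
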